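import Pool.Agent.Helper14.T3.StL

/-!
# Project T3, module X3L: leading form of the twisted path
-/

set_option autoImplicit false

namespace Pool.Agent.Helper62.T3

open Pool.Agent.Helper14.T3 Pool.Agent.Helper14.W3 Pool.Agent.Helper78.W3
open Pool.Agent.Helper14.CV (Homog EqC act)
open Pool.Agent.Helper14.TT (eXb)

private lemma chi_neg {D : ℕ} (hD : D % 4 = 3) (a : ℤ) :
    jacobiSym (-a) D = -jacobiSym a D := by
  have hodd : Odd D := Nat.odd_iff.mpr (by omega)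
  have h1 : jacobiSym (-a) D = jacobiSym (-1) D * jacobiSym a D := by
    rw [← jacobiSym.mul_left, neg_one_mul]
  rw [h1, jacobiSym.at_neg_one hodd, ZMod.χ₄_nat_three_mod_four hD, neg_one_mul]

private lemma chi_refl {D : ℕ} (hD : D % 4 = 3) (a : ℕ) (ha : a ≤ D) :
    jacobiSym ((D - a : ℕ) : ℤ) D = -jacobiSym (a : ℤ) D := by
  rw [← chi_neg hD, Nat.cast_sub ha]
  rw [jacobiSym.mod_left ((D : ℤ) - (a : ℤ)), jacobiSym.mod_left (-(a : ℤ))]
  congr 1
  have : ((D : ℤ) - a) = -(a : ℤ) + D := by ring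
  rw [this, Int.add_emod_right]

private lemma refl_sum {D : ℕ} (hD : D % 4 = 3) (h : ℕ → ZMod 3) :
    ∑ a ∈ Finset.range D, jacobiSym (a : ℤ) D • h a =
      -∑ a ∈ Finset.range D, jacobiSym (a : ℤ) D • h (D - a) := by
  have h1 : 1 < D := by omega
  obtain ⟨n, rfl⟩ : ∃ n, D = n + 1 := ⟨D - 1, by omega⟩
  have h0 : jacobiSym ((0 : ℕ) : ℤ) (n + 1) = 0 := by
    rw [Nat.cast_zero]
    exact jacobiSym.zero_left h1
  rw [Finset.sum_range_succ', Finset.sum_range_succ' (fun a => jacobiSym (a : ℤ) (n + 1) • h (n + 1 - a)),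
    h0, zero_smul, zero_smul, add_zero, add_zero]
  rw [← Finset.sum_range_reflect (fun a => jacobiSym ((a + 1 : ℕ) : ℤ) (n + 1) • h (a + 1)) n,
    ← Finset.sum_neg_distrib]
  refine Finset.sum_congr rfl fun a ha => ?_
  have ha' := Finset.mem_range.1 ha
  have e : n - 1 - a + 1 = n + 1 - (a + 1) := by omega
  rw [e, chi_refl hD (a + 1) (by omega), neg_smul]

private lemma sum_chi {D : ℕ} (hD : D % 4 = 3) :
    (∑ a ∈ Finset.range D, jacobiSym (a : ℤ) D • (1 : ZMod 3)) = 0 := by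
  have h := refl_sum hD (fun _ => 1)
  have h3 : ∀ x : ZMod 3, x = -x → x = 0 := by decide
  exact h3 _ h

private lemma chi_three {D : ℕ} (hD : D % 12 = 7) : jacobiSym 3 D = -1 := by
  have h := jacobiSym.quadratic_reciprocity_three_mod_four (a := 3) (b := D) (by norm_num) (by omega)
  have e : ((3 : ℕ) : ℤ) = 3 := rfl
  rw [e] at h
  rw [h]
  congr 1
  rw [jacobiSym.mod_left]
  have h1 : ((D : ℤ) % ((3 : ℕ) : ℤ)) = 1 := by omega
  rw [h1]
  exact jacobiSym.one_left 3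

private lemma iz_nat (u : ℤ) (D : ℕ) (hD : 0 < D) : IZ u (D : ℤ) = dS u D - dS (3 * u) D := by
  unfold IZ
  have h1 : ((D : ℤ)).sign = 1 := Int.sign_eq_one_of_pos (by exact_mod_cast hD)
  rw [h1, Int.natAbs_natCast, mul_one]

private lemma sum_iz (hChs : Chs) {D : ℕ} (hsq : Squarefree D) (hD : D % 12 = 7) (k : ℕ) :
    ∑ a ∈ Finset.range D, jacobiSym (a : ℤ) D • ((IZ (3 ^ k * (a : ℤ)) D : ℤ) : ZMod 3) =
      2 * (-1) ^ k * ((Tn D : ℤ) : ZMod 3) ^ 2 := by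
  have hcop : ∀ k : ℕ, IsCoprime ((3 : ℤ) ^ k) (D : ℤ) := by
    intro k
    refine IsCoprime.pow_left ?_
    have : Nat.Coprime 3 D := by
      rw [Nat.Prime.coprime_iff_not_dvd Nat.prime_three]
      omega
    exact_mod_cast Nat.isCoprime_iff_coprime.2 this
  have hc : ∀ k : ℕ, ∑ a ∈ Finset.range D, jacobiSym (a : ℤ) D * dS (3 ^ k * (a : ℤ)) D =
      (-1) ^ k * Tn D ^ 2 := by
    intro k
    rw [hChs D (3 ^ k) hsq (by omega) (hcop k), jacobiSym.pow_left, chi_three hD]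
  have h1 : ∑ a ∈ Finset.range D, jacobiSym (a : ℤ) D * IZ (3 ^ k * (a : ℤ)) D =
      2 * (-1) ^ k * Tn D ^ 2 := by
    have h2 : ∀ a ∈ Finset.range D, jacobiSym (a : ℤ) D * IZ (3 ^ k * (a : ℤ)) D =
        jacobiSym (a : ℤ) D * dS (3 ^ k * (a : ℤ)) D -
          jacobiSym (a : ℤ) D * dS (3 ^ (k + 1) * (a : ℤ)) D := by
      intro a _
      rw [iz_nat _ D (by omega)]
      have e : (3 : ℤ) * (3 ^ k * (a : ℤ)) = 3 ^ (k + 1) * (a : ℤ) := by ring
      rw [e]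
      ring
    rw [Finset.sum_congr rfl h2, Finset.sum_sub_distrib, hc, hc]
    ring
  have h3 := congrArg (fun z : ℤ => (z : ZMod 3)) h1
  push_cast at h3
  rw [← h3]
  refine Finset.sum_congr rfl fun a _ => ?_
  rw [zsmul_eq_mul]

theorem hX3l (hNeg : Neg3) (hTree : Tree3) (hChs : Chs) : X3l := by
  intro D r s G hsq hD12 hr hG hW
  obtain ⟨al, A, B, C, u0, u1, u2, hSH, hQ, hCA⟩ := hNeg r s G hr hG hW
  have hT := hTree r s _ al A B C u0 u1 u2 hr hSH hQ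
  rw [← hCA]
  have hD4 : D % 4 = 3 := by omega
  have hD0 : (D : ℤ) ≠ 0 := by
    have : 0 < D := by omega
    exact_mod_cast this.ne'
  -- the translation
  have hshift : ∀ p q : ℤ, (p ≠ 0 ∨ q ≠ 0) → G (p + 3 ^ (r + 1) * q) q = G p q := by
    obtain ⟨k, hk⟩ := hG.2 1 (3 ^ (r + 1)) 0 1 (by ring) dvd_rfl (dvd_zero _)
    have h1 := hk 1 0 (Or.inl one_ne_zero)
    simp only [act] at h1 hk
    have h2 : k = 0 := by
      have e1 : (1 * 1 + 3 ^ (r + 1) * 0 : ℤ) = 1 := by ring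
      have e2 : (0 * 1 + 1 * 0 : ℤ) = 0 := by ring
      rw [e1, e2] at h1
      exact (left_eq_add.1 h1)
    intro p q hpq
    have h3 := hk p q hpq
    rw [h2, add_zero] at h3
    rw [← h3]
    congr 1 <;> ring
  -- the sum of `χ(a) G(ma, D)`
  obtain ⟨S, hS⟩ : ∃ S : ZMod 3, S = ∑ a ∈ Finset.range D,
      jacobiSym (a : ℤ) D • G (3 ^ (r + 1) * (a : ℤ)) D := ⟨_, rfl⟩
  have he : eXb D (3 ^ (r + 1)) G = S := by
    unfold eXb
    have h1 : ∀ a ∈ Finset.range D, jacobiSym (a : ℤ) D • (G (3 ^ (r + 1) * (a : ℤ)) D - G 1 0) =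
        jacobiSym (a : ℤ) D • G (3 ^ (r + 1) * (a : ℤ)) D -
          (jacobiSym (a : ℤ) D • (1 : ZMod 3)) * G 1 0 := by
      intro a _
      rw [smul_sub, smul_mul_assoc, one_mul]
    rw [Finset.sum_congr rfl h1, Finset.sum_sub_distrib, ← Finset.sum_mul, sum_chi hD4, zero_mul,
      sub_zero, hS]
  have h2S : ∑ a ∈ Finset.range D, jacobiSym (a : ℤ) D •
      (G (3 ^ (r + 1) * (a : ℤ)) D - G (-(3 ^ (r + 1) * (a : ℤ))) D) = 2 * S := by
    have h1 : ∀ a ∈ Finset.range D, jacobiSym (a : ℤ) D •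
        (G (3 ^ (r + 1) * (a : ℤ)) D - G (-(3 ^ (r + 1) * (a : ℤ))) D) =
        jacobiSym (a : ℤ) D • G (3 ^ (r + 1) * (a : ℤ)) D -
        jacobiSym (a : ℤ) D • G (3 ^ (r + 1) * ((D - a : ℕ) : ℤ)) D := by
      intro a ha
      have ha' := Finset.mem_range.1 ha
      rw [smul_sub]
      congr 2
      rw [← hshift (-(3 ^ (r + 1) * (a : ℤ))) D (Or.inr hD0), Nat.cast_sub ha'.le]
      congr 1
      ring
    rw [Finset.sum_congr rfl h1, Finset.sum_sub_distrib]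
    have h3 := refl_sum hD4 (fun a => G (3 ^ (r + 1) * (a : ℤ)) D)
    rw [← hS] at h3 ⊢
    rw [h3]
    have h4 : (∑ a ∈ Finset.range D, jacobiSym (a : ℤ) D •
        G (3 ^ (r + 1) * ((D - a : ℕ) : ℤ)) D) = -S := by
      rw [h3, neg_neg]
    rw [h4]
    ring
  -- the explicit value
  have hval : ∀ a ∈ Finset.range D, jacobiSym (a : ℤ) D •
      (G (3 ^ (r + 1) * (a : ℤ)) D - G (-(3 ^ (r + 1) * (a : ℤ))) D) =
      (jacobiSym (a : ℤ) D • (1 : ZMod 3)) * (G 1 0 - G (-1) 0) +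
      (C + B) * (jacobiSym (a : ℤ) D • ((IZ (3 ^ (r + 1) * (a : ℤ)) D : ℤ) : ZMod 3)) +
      (A + B) * (jacobiSym (a : ℤ) D • ((IZ (3 ^ r * (a : ℤ)) D : ℤ) : ZMod 3)) := by
    intro a _
    by_cases hg : Int.gcd (a : ℤ) (D : ℤ) = 1
    · have hcop : IsCoprime (3 ^ (r + 1) * (a : ℤ)) (D : ℤ) := by
        refine IsCoprime.mul_left (IsCoprime.pow_left ?_) (Int.isCoprime_iff_gcd_eq_one.2 hg)
        have : Nat.Coprime 3 D := by
          rw [Nat.Prime.coprime_iff_not_dvd Nat.prime_three]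
          omega
        exact_mod_cast Nat.isCoprime_iff_coprime.2 this
      have h1 := hT _ _ hcop
      rw [h1]
      have h3 : (3 : ℤ) ∣ 3 ^ (r + 1) * (a : ℤ) := ⟨3 ^ r * a, by ring⟩
      have h4 : (3 ^ (r + 1) * (a : ℤ)) / 3 = 3 ^ r * (a : ℤ) :=
        Int.ediv_eq_of_eq_mul_left (by norm_num) (by ring)
      have h5 : (((3 ^ r * (a : ℤ)) : ℤ) : ZMod 3) = 0 := by
        obtain ⟨r', rfl⟩ : ∃ r', r = r' + 1 := ⟨r - 1, by omega⟩
        push_cast
        have : (3 : ZMod 3) = 0 := rfl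
        rw [this, zero_pow (Nat.succ_ne_zero r'), zero_mul]
      unfold E3
      rw [if_pos h3, h4, h5, zsmul_eq_mul, zsmul_eq_mul, zsmul_eq_mul, zsmul_eq_mul]
      ring
    · have h0 : jacobiSym (a : ℤ) D = 0 := by
        have : NeZero D := ⟨by omega⟩
        exact jacobiSym.eq_zero_iff_not_coprime.mpr hg
      rw [h0]
      simp
  have hfin : 2 * S = 2 * ((-1) ^ (r + 1) * ((Tn D : ℤ) : ZMod 3) ^ 2 * (C - A)) := by
    rw [← h2S, Finset.sum_congr rfl hval, Finset.sum_add_distrib, Finset.sum_add_distrib,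
      ← Finset.sum_mul, sum_chi hD4, ← Finset.mul_sum, ← Finset.mul_sum,
      sum_iz hChs hsq hD12 (r + 1), sum_iz hChs hsq hD12 r]
    ring
  rw [he]
  have h2 : ∀ x y : ZMod 3, 2 * x = 2 * y → x = y := by decide
  exact h2 _ _ hfin

end Pool.Agent.Helper62.T3
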